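import Pool.Agent.Q248.DC.Main

/-!
# The minimum number of degree-close pairs: `h_k(G) ≥ f_0(n,k)` for all `n > k ≥ 1`

`closePairs G k` is `h_k(G)` and `f0 n k` is `f_0(n,k)` (see `Pool/Agent/Q248/DC/Basic.lean`).
-/

namespace Pool.Agent.Results.MP_3eb7f1_co.MinimumClosePairs

open Q248.DC

/-- Every graph `G` on `n > k ≥ 1` vertices has at least `f_0(n,k)` unordered pairs of distinct
vertices whose degrees differ by less than `k`. -/
theorem result (n k : ℕ) (hk : 1 ≤ k) (hkn : k < n) {V : Type*} [Fintype V] [DecidableEq V]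
    (G : SimpleGraph V) [DecidableRel G.Adj] (hV : Fintype.card V = n) :
    f0 n k ≤ closePairs G k := by
  subst hV
  exact f0_le G k hk hkn

end Pool.Agent.Results.MP_3eb7f1_co.MinimumClosePairs
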